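import Pool.Agent.Y460.KB.Main

/-!
MP_1e3e9c_ag, Q1, for the closed subvarieties of the varieties of the vectors whose `m`-th powers,
for instance whose squares, are the values of a polynomial of low degree at given constants.

`V = {F = 0}` is a closed subset of `P^N` such that for every point `x` of `V` there is a polynomial
`H` of degree at most `n` with `x i ^ m = H (a i)` for all `i`, and `H` is not divisible by the
`m`-th power of a polynomial of degree at least two (`AllSimple`). The last condition always holds
if `n < 2 m` (first part); then `V` is any closed subset of the smooth complete intersection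
`PowVal a n m` of dimension `n`.

`Brody F`: every holomorphic map from the complex plane to `V` is constant, that is, `V` is
Kobayashi hyperbolic. `AlgHyp F`: `V` is algebraically hyperbolic. `NoLines F`: `V` contains no
line. `AllSub P F`: all the closed subvarieties of positive dimension of `V`, smooth or not, and in
particular `V` if it is irreducible, have the property `P` of the function field and the dimension.
The properties are: to be of general type; to have a nonnegative Kodaira dimension; to have a
pseudo-effective canonical class (all three of smooth projective models); not to be ruled.
-/

set_option autoImplicit false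

namespace Pool.Agent.Results.MP_1e3e9c_ag.PolynomialValueKobayashi

open Pool.Agent.W602.GT Pool.Agent.Y190.BV Pool.Agent.Y190.PH Pool.Agent.Y460.KB

/-- Let `V` be a closed subset of `P^N` as above, where the `a i` are distinct, `m ≥ 2` and
`4 n + (n + 1) ^ 2 < 2 (N + 1)`. If `V` is Kobayashi hyperbolic, then all its closed subvarieties of
positive dimension are of general type; conversely `V` is hyperbolic if all of them have a
pseudo-effective canonical class, or only if none of them is ruled, or if `V` contains no line. -/
theorem result {N n m : ℕ} (hm : 2 ≤ m) (hN : 4 * n + (n + 1) ^ 2 < 2 * (N + 1))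
    (a : Fin (N + 1) → ℂ) (ha : Function.Injective a) {ι : Type}
    (F : ι → MvPolynomial (Fin (N + 1)) ℂ) (hF : ∀ e, IsForm (F e)) :
    (n < 2 * m → Cone F ⊆ PowVal a n m → AllSimple a n m F) ∧
    (AllSimple a n m F →
      [Brody F, AlgHyp F, NoLines F,
        AllSub (fun K _ _ w => GeneralType ℂ K w) F,
        AllSub (fun K _ _ w => KodGe ℂ K w (fun _ => False) 0) F,
        AllSub (fun K _ _ w => Psef ℂ K w (fun _ => False)) F,
        AllSub (fun K _ _ _ => ¬ Ruled ℂ K) F].TFAE) :=
  ⟨fun hnm hV => allSimple_of_lt hnm hV, fun hS => main hm hN ha hF hS⟩

end Pool.Agent.Results.MP_1e3e9c_ag.PolynomialValueKobayashi
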